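import Mathlib
import Pool.Agent.helper35.DR.SpecC

/-!
# Project dr, module CFE
-/

set_option autoImplicit false

namespace Pool.Agent.DR

open Pool.Agent.helper58.DC Pool.Agent.DI

theorem CFE_stF_le {Γ : Type} [Group Γ] (N : Subgroup Γ) (ψ : Γ → ℂ) : stF N ψ ≤ N :=
  fun _ hx => hx.1

theorem CFE_nz {Γ : Type} [Group Γ] (G N : Subgroup Γ) (hG : G.Normal) : N ≤ nz (N ⊓ G) := by
  intro n hn
  show n ∈ Subgroup.normalizer ((N ⊓ G : Subgroup Γ) : Set Γ)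
  rw [Subgroup.mem_normalizer_iff]
  intro x
  constructor
  · rintro ⟨h1, h2⟩
    exact ⟨N.mul_mem (N.mul_mem hn h1) (N.inv_mem hn), hG.conj_mem x h2 n⟩
  · rintro ⟨h1, h2⟩
    have h3 : x = n⁻¹ * (n * x * n⁻¹) * n := by group
    refine ⟨?_, ?_⟩
    · have := N.mul_mem (N.mul_mem (N.inv_mem hn) h1) hn
      rwa [← h3] at this
    · have := hG.conj_mem _ h2 n⁻¹
      rw [inv_inv] at this
      rwa [← h3] at this

theorem CFE_mod {Γ : Type} [Group Γ] (S G N : Subgroup Γ) (hG : G.Normal) (hS : S ≤ N)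
    (hN : N ⊔ G = ⊤) : S ⊔ (N ⊓ G) = N ↔ S ⊔ G = ⊤ := by
  constructor
  · intro h
    rw [eq_top_iff, ← hN]
    refine sup_le ?_ le_sup_right
    rw [← h]
    exact sup_le le_sup_left (le_trans inf_le_right le_sup_right)
  · intro h
    refine le_antisymm (sup_le hS inf_le_left) ?_
    intro x hx
    have hx' : x ∈ S ⊔ G := by
      rw [h]
      exact Subgroup.mem_top x
    rw [Subgroup.mem_sup_of_normal_right] at hx'
    obtain ⟨s, hs, g, hg, rfl⟩ := hx'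
    have hgN : g ∈ N := by
      have := N.mul_mem (N.inv_mem (hS hs)) hx
      rwa [inv_mul_cancel_left] at this
    exact Subgroup.mul_mem _ (Subgroup.mem_sup_left hs) (Subgroup.mem_sup_right ⟨hgN, hg⟩)

theorem CFE (hCFD : CFD_stmt) (hCFO : CFO_stmt) : CFE_stmt := by
  intro Γ _ _ p _ M G₁ G₂ N hG1 hG2 h12 τ D
  unfold hf
  by_cases hN : N ⊔ G₂ = ⊤
  · rw [if_pos hN]
    rw [hCFD Γ p (N ⊓ G₁) (N ⊓ G₂) N (inf_le_inf_left N h12) inf_le_left (CFE_nz G₁ N hG1)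
      (CFE_nz G₂ N hG2) (Cov M G₁ τ) ?_ D]
    · have hset : {ψ : Γ → ℂ | ψ ∈ IrrOn (N ⊓ G₁) ∧ Cov M G₁ τ ψ ∧ stF N ψ ⊔ (N ⊓ G₂) = N} =
          {ψ : Γ → ℂ | ψ ∈ IrrOn (N ⊓ G₁) ∧ Cov M G₁ τ ψ ∧ stF N ψ ⊔ G₂ = ⊤} := by
        ext ψ
        simp only [Set.mem_ofPred_eq]
        rw [CFE_mod (stF N ψ) G₂ N hG2 (CFE_stF_le N ψ) hN]
      rw [hset]
      refine finsum_mem_congr rfl ?_
      intro ψ _
      have h1 : stF N ψ ⊓ (N ⊓ G₂) = stF N ψ ⊓ G₂ := by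
        rw [← inf_assoc, inf_eq_left.2 (CFE_stF_le N ψ)]
      rw [h1]
    · intro φ hφ ψ hψ e he hov
      have h1 := hCFO Γ G₁ G₂ N hG1 h12 φ hφ ψ hψ e he hov
      unfold Cov
      constructor
      · intro h g hg
        rw [← h1 g hg]
        exact h g hg
      · intro h g hg
        rw [h1 g hg]
        exact h g hg
  · rw [if_neg hN]
    have hset : {ψ : Γ → ℂ | ψ ∈ IrrOn (N ⊓ G₁) ∧ Cov M G₁ τ ψ ∧ stF N ψ ⊔ G₂ = ⊤} = ∅ := by
      ext ψ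
      simp only [Set.mem_ofPred_eq, Set.mem_empty_iff_false, iff_false]
      rintro ⟨-, -, h⟩
      apply hN
      rw [eq_top_iff, ← h]
      exact sup_le_sup_right (CFE_stF_le N ψ) G₂
    rw [hset, finsum_mem_empty]

end Pool.Agent.DR
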